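import Pool.Agent.H5.QH.Targets

/-!
# Diagonalisation
-/

set_option autoImplicit false

open NumberField IsDedekindDomain Matrix Pool.Agent.H32.QC Pool.Agent.H34.N6 Pool.Agent.H5.QH

namespace Pool.Agent.H78.QH

theorem pf_DGN : T_DGN := by
  intro F _ h2 n A hA hdet
  let _ : Invertible (2 : F) := invertibleOfNonzero h2
  set B : LinearMap.BilinForm F (Fin n → F) := Matrix.toBilin' A with hB
  have hBs : LinearMap.IsSymm B := by
    constructor
    intro x y
    rw [RingHom.id_apply, hB, Matrix.toBilin'_apply', Matrix.toBilin'_apply']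
    rw [Matrix.dotProduct_mulVec, ← Matrix.mulVec_transpose, hA.eq, dotProduct_comm]
  obtain ⟨v, hv⟩ := LinearMap.BilinForm.exists_orthogonal_basis hBs
  have hfr : Module.finrank F (Fin n → F) = n := by simp
  set w : Module.Basis (Fin n) F (Fin n → F) := v.reindex (finCongr hfr) with hw
  have hwo : ∀ i j, i ≠ j → B (w i) (w j) = 0 := by
    intro i j hij
    rw [hw, Module.Basis.reindex_apply, Module.Basis.reindex_apply]
    refine hv ?_
    intro h
    exact hij ((finCongr hfr).symm.injective h)
  set Q : Matrix (Fin n) (Fin n) F := (Pi.basisFun F (Fin n)).toMatrix w with hQ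
  have hQe : ∀ i j, Q i j = w j i := by
    intro i j
    rw [hQ, Module.Basis.toMatrix_apply, Pi.basisFun_repr]
  have hQu : IsUnit Q.det := (Pi.basisFun F (Fin n)).isUnit_det w
  have hent : ∀ i j, (Qᵀ * A * Q) i j = B (w i) (w j) := by
    intro i j
    rw [hB, Matrix.toBilin'_apply', Matrix.mul_assoc, Matrix.mul_apply, dotProduct]
    refine Finset.sum_congr rfl fun k _ => ?_
    rw [Matrix.transpose_apply, hQe, Matrix.mul_apply, Matrix.mulVec, dotProduct]
    rfl
  have hdiag : Qᵀ * A * Q = diagonal fun i => B (w i) (w i) := by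
    ext i j
    rw [hent]
    by_cases hij : i = j
    · subst hij
      rw [diagonal_apply_eq]
    · rw [diagonal_apply_ne _ hij]
      exact hwo i j hij
  refine ⟨fun i => B (w i) (w i), Q, ?_, hQu, hdiag⟩
  have hd : (Qᵀ * A * Q).det ≠ 0 := by
    rw [Matrix.det_mul, Matrix.det_mul, Matrix.det_transpose]
    exact mul_ne_zero (mul_ne_zero hQu.ne_zero hdet) hQu.ne_zero
  rw [hdiag, Matrix.det_diagonal] at hd
  intro i
  exact (Finset.prod_ne_zero_iff.mp hd) i (Finset.mem_univ i)

end Pool.Agent.H78.QH
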