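import Pool.Agent.H5.QH.Targets

/-!
# Quaternary forms whose discriminant is not a square
-/

set_option autoImplicit false

open NumberField IsDedekindDomain Matrix Pool.Agent.H32.QC Pool.Agent.H34.N6 Pool.Agent.H5.QH

namespace Pool.Agent.H78.QH

theorem pf_F4N : T_F4N := by
  intro F E _ _ _ _ t s ht hs hE a b c d ha hb hc hd hsq hiso
  obtain ⟨x, hx0, hx⟩ := hiso
  have hinj : Function.Injective (algebraMap F E) := (algebraMap F E).injective
  have lin : ∀ p q : F, algebraMap F E p + algebraMap F E q * s = 0 → p = 0 ∧ q = 0 := by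
    intro p q h
    have hq : q = 0 := by
      by_contra hq
      refine ht ⟨p / q, ?_⟩
      have hq' : algebraMap F E q ≠ 0 := fun h0 => hq (hinj (by rw [h0, map_zero]))
      have h1 : s = -(algebraMap F E p / algebraMap F E q) := by
        field_simp
        linear_combination h
      apply hinj
      rw [← hs, h1, map_mul, map_div₀]
      ring
    subst hq
    rw [map_zero, zero_mul, add_zero] at h
    exact ⟨hinj (by rw [h, map_zero]), rfl⟩
  choose u v huv using fun i => hE (x i)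
  have e1 : (a * u 0 ^ 2 + b * u 1 ^ 2 + c * u 2 ^ 2) + t * (a * v 0 ^ 2 + b * v 1 ^ 2 + c * v 2 ^ 2) = 0 ∧
      2 * (a * (u 0 * v 0) + b * (u 1 * v 1) + c * (u 2 * v 2)) = 0 := by
    apply lin
    rw [Fin.sum_univ_three] at hx
    simp only [Matrix.cons_val_zero, Matrix.cons_val_one, Matrix.cons_val] at hx
    rw [huv 0, huv 1, huv 2] at hx
    simp only [map_add, map_mul, map_pow, map_ofNat]
    rw [← hs]
    linear_combination hx
  obtain ⟨e1, e2⟩ := e1
  have e3 : a * (u 0 * v 0) + b * (u 1 * v 1) + c * (u 2 * v 2) = 0 := by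
    rcases mul_eq_zero.mp e2 with h | h
    · exact absurd h two_ne_zero
    · exact h
  by_cases hgv : a * v 0 ^ 2 + b * v 1 ^ 2 + c * v 2 ^ 2 = 0
  · have hgu : a * u 0 ^ 2 + b * u 1 ^ 2 + c * u 2 ^ 2 = 0 := by
      rw [hgv, mul_zero, add_zero] at e1
      exact e1
    have key : ∀ w : Fin 3 → F, w ≠ 0 → a * w 0 ^ 2 + b * w 1 ^ 2 + c * w 2 ^ 2 = 0 →
        Iso ![a, b, c, d] := by
      intro w hw hgw
      refine ⟨![w 0, w 1, w 2, 0], ?_, ?_⟩
      · intro h0
        refine hw ?_
        funext i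
        fin_cases i
        · exact congrFun h0 0
        · exact congrFun h0 1
        · exact congrFun h0 2
      · rw [Fin.sum_univ_four]
        simp only [Matrix.cons_val_zero, Matrix.cons_val_one, Matrix.cons_val]
        linear_combination hgw
    by_cases hu : u = 0
    · have hv : v ≠ 0 := by
        intro hv
        refine hx0 ?_
        funext i
        rw [huv i, hu, hv]
        simp
      exact key v hv hgv
    · exact key u hu hgu
  · obtain ⟨r, hr⟩ := hsq
    have ht0 : t ≠ 0 := fun h0 => ht (by rw [h0]; exact ⟨0, by ring⟩)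
    have hr0 : r ≠ 0 := by
      intro h0
      rw [h0, mul_zero] at hr
      have : t * (a * b * c * d) ≠ 0 := by positivity
      exact this hr
    refine ⟨![b * c * (u 1 * v 2 - u 2 * v 1), c * a * (u 2 * v 0 - u 0 * v 2),
      a * b * (u 0 * v 1 - u 1 * v 0),
      r * (a * v 0 ^ 2 + b * v 1 ^ 2 + c * v 2 ^ 2) / d], ?_, ?_⟩
    · intro h0
      have h1 := congrFun h0 3
      simp only [Matrix.cons_val, Pi.zero_apply] at h1
      exact (div_ne_zero (mul_ne_zero hr0 hgv) hd) h1
    · rw [Fin.sum_univ_four]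
      simp only [Matrix.cons_val_zero, Matrix.cons_val_one, Matrix.cons_val]
      have h2 : d * (r * (a * v 0 ^ 2 + b * v 1 ^ 2 + c * v 2 ^ 2) / d) ^ 2 =
          t * (a * b * c) * (a * v 0 ^ 2 + b * v 1 ^ 2 + c * v 2 ^ 2) ^ 2 := by
        have : d * (r * (a * v 0 ^ 2 + b * v 1 ^ 2 + c * v 2 ^ 2) / d) ^ 2 =
            (r * r) / d * (a * v 0 ^ 2 + b * v 1 ^ 2 + c * v 2 ^ 2) ^ 2 := by
          field_simp
        rw [this, ← hr]
        field_simp
      rw [h2]
      have h3 : a * u 0 ^ 2 + b * u 1 ^ 2 + c * u 2 ^ 2 =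
          -(t * (a * v 0 ^ 2 + b * v 1 ^ 2 + c * v 2 ^ 2)) := by linear_combination e1
      have h4 : a * (b * c * (u 1 * v 2 - u 2 * v 1)) ^ 2 +
          b * (c * a * (u 2 * v 0 - u 0 * v 2)) ^ 2 + c * (a * b * (u 0 * v 1 - u 1 * v 0)) ^ 2 =
          a * b * c * ((a * u 0 ^ 2 + b * u 1 ^ 2 + c * u 2 ^ 2) *
            (a * v 0 ^ 2 + b * v 1 ^ 2 + c * v 2 ^ 2) -
            (a * (u 0 * v 0) + b * (u 1 * v 1) + c * (u 2 * v 2)) ^ 2) := by ring
      rw [h4, h3, e3]
      ring

end Pool.Agent.H78.QH
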