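import Pool.Agent.H5.QH.Targets

/-!
# Splitting off a hyperbolic plane
-/

set_option autoImplicit false

open NumberField IsDedekindDomain Matrix Pool.Agent.H32.QC Pool.Agent.H34.N6 Pool.Agent.H5.QH

namespace Pool.Agent.H78.QH

section

variable {F : Type} [Field F]

/-- the block matrix with the blocks `1` and `Q` -/
def bone {n : ℕ} (Q : Matrix (Fin n) (Fin n) F) : Matrix (Fin (n + 1)) (Fin (n + 1)) F :=
  Matrix.of fun i j => Fin.cases (motive := fun _ => F)
    (Fin.cases (motive := fun _ => F) 1 (fun _ => 0) j)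
    (fun i' => Fin.cases (motive := fun _ => F) 0 (fun j' => Q i' j') j) i

lemma bone_zz {n : ℕ} (Q : Matrix (Fin n) (Fin n) F) : bone Q 0 0 = 1 := rfl

lemma bone_zs {n : ℕ} (Q : Matrix (Fin n) (Fin n) F) (j : Fin n) : bone Q 0 j.succ = 0 := rfl

lemma bone_sz {n : ℕ} (Q : Matrix (Fin n) (Fin n) F) (i : Fin n) : bone Q i.succ 0 = 0 := rfl

lemma bone_ss {n : ℕ} (Q : Matrix (Fin n) (Fin n) F) (i j : Fin n) :
    bone Q i.succ j.succ = Q i j := rfl

lemma bone_det {n : ℕ} (Q : Matrix (Fin n) (Fin n) F) : (bone Q).det = Q.det := by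
  rw [Matrix.det_succ_row_zero, Fin.sum_univ_succ]
  have h1 : ∀ j : Fin n, bone Q 0 j.succ = 0 := fun j => rfl
  simp only [h1, mul_zero, zero_mul, Finset.sum_const_zero, add_zero]
  have h2 : (bone Q).submatrix Fin.succ (Fin.succAbove 0) = Q := by
    ext i j
    rw [Matrix.submatrix_apply, Fin.zero_succAbove]
    rfl
  rw [h2, bone_zz]
  simp

lemma qdq {n : ℕ} (Q : Matrix (Fin n) (Fin n) F) (a : Fin n → F) (i j : Fin n) :
    (Qᵀ * diagonal a * Q) i j = ∑ k, Q k i * a k * Q k j := by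
  rw [Matrix.mul_apply]
  refine Finset.sum_congr rfl fun k _ => ?_
  rw [Matrix.mul_diagonal, Matrix.transpose_apply]

lemma bone_conj {n : ℕ} (Q : Matrix (Fin n) (Fin n) F) (t : F) (c b : Fin n → F)
    (h : Qᵀ * diagonal c * Q = diagonal b) :
    (bone Q)ᵀ * diagonal (vecCons t c) * bone Q = diagonal (vecCons t b) := by
  ext i j
  rw [qdq, Fin.sum_univ_succ]
  refine Fin.cases ?_ (fun i => ?_) i <;> refine Fin.cases ?_ (fun j => ?_) j
  · simp [bone_zz, bone_sz]
  · have : (0 : Fin (n + 1)) ≠ j.succ := (Fin.succ_ne_zero j).symm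
    simp [bone_zs, bone_sz, diagonal_apply_ne _ this]
  · simp [bone_zs, bone_sz]
  · have h1 := congrFun (congrFun h i) j
    rw [qdq] at h1
    simp only [bone_zs, bone_ss, zero_mul, zero_add, cons_val_succ]
    rw [h1]
    by_cases hij : i = j
    · subst hij
      rw [diagonal_apply_eq, diagonal_apply_eq, cons_val_succ]
    · rw [diagonal_apply_ne _ hij, diagonal_apply_ne _ fun h => hij (Fin.succ_injective _ h)]

end

theorem pf_HSP (hU : T_UVI) (hR : T_REP) (hI : T_ISV) : T_HSP := by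
  intro F _ h2 n a ha hiso
  obtain ⟨u, hu⟩ := hU F h2 (n + 2) a ha hiso 1
  obtain ⟨c, Q, hc, hQ, hQa⟩ := hR F h2 (n + 1) a u 1 ha one_ne_zero hu
  have hiso1 : Iso (vecCons 1 c) := (hI F (n + 2) a (vecCons 1 c) Q hQ hQa).mp hiso
  have hy : ∃ y : Fin (n + 1) → F, ∑ i, c i * y i ^ 2 = -1 := by
    obtain ⟨x, hx0, hx⟩ := hiso1
    rw [Fin.sum_univ_succ] at hx
    simp only [cons_val_zero, cons_val_succ, one_mul] at hx
    by_cases h0 : x 0 = 0
    · refine hU F h2 (n + 1) c hc ⟨fun i => x i.succ, ?_, ?_⟩ (-1)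
      · intro h
        refine hx0 ?_
        funext i
        refine Fin.cases h0 (fun i => ?_) i
        exact congrFun h i
      · rw [h0] at hx
        simpa using hx
    · refine ⟨fun i => x i.succ / x 0, ?_⟩
      have h1 : ∑ i, c i * (x i.succ / x 0) ^ 2 = (∑ i, c i * x i.succ ^ 2) / x 0 ^ 2 := by
        rw [Finset.sum_div]
        refine Finset.sum_congr rfl fun i _ => ?_
        rw [div_pow, mul_div_assoc]
      rw [h1, div_eq_iff (pow_ne_zero 2 h0)]
      linear_combination hx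
  obtain ⟨y, hy⟩ := hy
  obtain ⟨b, Q1, hb, hQ1, hQ1c⟩ := hR F h2 n c y (-1) hc (neg_ne_zero.mpr one_ne_zero) hy
  refine ⟨b, Q * bone Q1, hb, ?_, ?_⟩
  · rw [Matrix.det_mul, bone_det]
    exact hQ.mul hQ1
  · rw [Matrix.transpose_mul]
    have h1 : (bone Q1)ᵀ * Qᵀ * diagonal a * (Q * bone Q1) =
        (bone Q1)ᵀ * (Qᵀ * diagonal a * Q) * bone Q1 := by
      simp only [Matrix.mul_assoc]
    rw [h1, hQa]
    exact bone_conj Q1 1 c (vecCons (-1) b) hQ1c

end Pool.Agent.H78.QH
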